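import Pool.Agent.Lib.MP_d64b07_co.Hadwiger

set_option autoImplicit false

/-!
# MP_d64b07_co: the question is equivalent to the conjecture of Hadwiger
-/

universe u

namespace Pool.Agent.Results.MP_d64b07_co.Hadwiger

open Pool.Agent.Lib.MP_d64b07_co

/-- For every `k ≥ 1` the question (for this `k` and all `d`) has the answer yes if and only if the
conjecture of Hadwiger is true for `k`; moreover every `k`-vertex-critical graph is maximal `d`-fold
`k`-colourable for the number `d` of its `k`-colourings. -/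
theorem result (k : ℕ) (hk : 1 ≤ k) :
    ((∀ d : ℕ, 1 ≤ d → ∀ (V : Type u) [Finite V] (G : SimpleGraph V), IsMaximalFold G d k →
        G.Colorable (k - 1) ∨ HasCliqueMinor G k) ↔
      ∀ (V : Type u) [Finite V] (G : SimpleGraph V), (k : ℕ∞) ≤ G.chromaticNumber →
        HasCliqueMinor G k) ∧
    ∀ (V : Type u) [Finite V] (G : SimpleGraph V), ¬ G.Colorable (k - 1) →
      (∀ v, (G.induce {v}ᶜ).Colorable (k - 1)) →
      1 ≤ numCol G k ∧ IsMaximalFold G (numCol G k) k := by
  have key : ∀ (V : Type u) [Finite V] (G : SimpleGraph V),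
      (k : ℕ∞) ≤ G.chromaticNumber ↔ ¬ G.Colorable (k - 1) := by
    intro V _ G
    rw [← SimpleGraph.chromaticNumber_le_iff_colorable, not_le, ← ENat.add_one_le_iff (by simp)]
    have : ((k - 1 : ℕ) : ℕ∞) + 1 = (k : ℕ∞) := by
      have h : k - 1 + 1 = k := by omega
      exact_mod_cast h
    rw [this]
  refine ⟨⟨fun h V _ G hG => hadwiger_of hk h V G ((key V G).1 hG), ?_⟩, ?_⟩
  · intro h d _ V _ G _
    by_cases hc : G.Colorable (k - 1)
    · exact Or.inl hc
    · exact Or.inr (h V G ((key V G).2 hc))
  · intro V _ G hG hcrit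
    exact critical_maximal hk hG hcrit

end Pool.Agent.Results.MP_d64b07_co.Hadwiger
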