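import Pool.Agent.Lib.MP_d64b07_co.Main

set_option autoImplicit false

/-!
# MP_d64b07_co: maximal `d`-fold `k`-colourable graphs with at least `2 d - 2` colourings
-/

universe u

namespace Pool.Agent.Results.MP_d64b07_co.ManyColourings

open Pool.Agent.Lib.MP_d64b07_co

/-- A maximal `d`-fold `k`-colourable graph with at least `2 d - 2` different `k`-colourings is
perfect, and it is `(k - 1)`-colourable or contains `K_k` as a subgraph. With at least `2 d - 1`
different `k`-colourings it is complete multipartite. -/
theorem result (V : Type u) [Finite V] (G : SimpleGraph V) (d k : ℕ) (hd : 1 ≤ d)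
    (hG : IsMaximalFold G d k) (hm : 2 * d ≤ numCol G k + 2) :
    (∀ s : Set V, (G.induce s).chromaticNumber = ((G.induce s).cliqueNum : ℕ∞)) ∧
      (G.Colorable (k - 1) ∨ ¬ G.CliqueFree k) ∧
      (2 * d ≤ numCol G k + 1 → G.IsCompleteMultipartite) := by
  classical
  have h1 : ∀ s : Set V, (G.induce s).chromaticNumber = ((G.induce s).cliqueNum : ℕ∞) := by
    intro s
    refine le_antisymm (perfect hd hG hm s).chromaticNumber_le ?_
    obtain ⟨t, ht⟩ := (G.induce s).exists_isNClique_cliqueNum
    have := ht.isClique.card_le_chromaticNumber
    rwa [ht.card_eq] at this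
  refine ⟨h1, ?_, ?_⟩
  · have h2 : G.Colorable G.cliqueNum := by
      have hne : {P : Setoid V | IsColouring G k P}.Nonempty := by
        by_contra hcon
        rw [Set.not_nonempty_iff_eq_empty] at hcon
        have h1 := hG.1
        unfold IsFold numCol at h1
        rw [hcon, Set.ncard_empty] at h1
        omega
      obtain ⟨P, hP⟩ := hne
      exact colorable_cliqueNum (P := P) hP.2 (elementary hG hm hP)
    by_cases hlt : G.cliqueNum ≤ k - 1
    · exact Or.inl (h2.mono hlt)
    · right
      obtain ⟨t, ht⟩ := G.exists_isNClique_cliqueNum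
      intro hfree
      have h3 : k ≤ G.cliqueNum := by omega
      exact (hfree.mono h3) t ht
  · exact fun h => complete_multipartite hG h

end Pool.Agent.Results.MP_d64b07_co.ManyColourings
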